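import Pool.Agent.Helper85.IA.St

/-!
# Project IA, part N, module SEL (helper18): selection of a good outcome
-/

set_option autoImplicit false

namespace Pool.Agent.Helper18.IA85

open Finset Pool.Agent.Helper93.IA Pool.Agent.Helper85.IA

private theorem lim_aux (c : ℝ) (hc : 0 < c) :
    ∃ n0 : ℕ, ∀ n : ℕ, n0 ≤ n → 20 * (n : ℝ) ^ 2 * Real.exp (-c * n) < 1 := by
  have h1 : Filter.Tendsto (fun n : ℕ => (c * (n : ℝ)) ^ 2 * Real.exp (-(c * (n : ℝ))))
      Filter.atTop (nhds 0) :=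
    (Real.tendsto_pow_mul_exp_neg_atTop_nhds_zero 2).comp
      ((tendsto_natCast_atTop_atTop).const_mul_atTop hc)
  have h2 := h1.const_mul (20 / c ^ 2)
  rw [mul_zero] at h2
  have h3 : Filter.Tendsto (fun n : ℕ => 20 * (n : ℝ) ^ 2 * Real.exp (-c * n))
      Filter.atTop (nhds 0) := by
    refine h2.congr (fun n => ?_)
    rw [neg_mul]
    field_simp
  have h4 := h3.eventually_lt_const (one_pos)
  exact Filter.eventually_atTop.mp h4

theorem hSEL : StUNI → StCON → StSEL := by
  intro hUNI hCON Λ η hΛ hη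
  obtain ⟨c, hc, hcon⟩ := hCON Λ η hΛ hη
  obtain ⟨n0, hn0⟩ := lim_aux c hc
  refine ⟨max n0 1, lt_of_lt_of_le one_pos (le_max_right _ _), ?_⟩
  intro α β γ _ _ _ _ _ _ n ε y hn hα hβ hy J _ f b hJ hT
  have hn1 : n0 ≤ n := le_trans (le_max_left _ _) hn
  have hnpos : 0 < n := lt_of_lt_of_le one_pos (le_trans (le_max_right _ _) hn)
  have hsum : ∑ j, Ex (ι := α × β) (κ := fun _ => Option γ) (wt y)
      (fun σ => if E y (f j) + η * n ≤ f j σ then 1 else 0) < 1 := by
    calc ∑ j, Ex (ι := α × β) (κ := fun _ => Option γ) (wt y)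
          (fun σ => if E y (f j) + η * n ≤ f j σ then 1 else 0)
        ≤ ∑ _j : J, Real.exp (-c * n) := by
          apply Finset.sum_le_sum
          intro j _
          obtain ⟨S, hL, hS, -⟩ := hT j
          exact hcon α β γ n ε y (f j) S hnpos hα hβ hy hL hS
      _ = (Fintype.card J : ℝ) * Real.exp (-c * n) := by
          rw [Finset.sum_const, Finset.card_univ, nsmul_eq_mul]
      _ ≤ 20 * (n : ℝ) ^ 2 * Real.exp (-c * n) := by
          apply mul_le_mul_of_nonneg_right _ (Real.exp_pos _).le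
          exact_mod_cast hJ
      _ < 1 := hn0 n hn1
  obtain ⟨σ, hσ, hQ⟩ := hUNI (α × β) (fun _ => Option γ) (wt y) J
    (fun j σ => E y (f j) + η * n ≤ f j σ) (fun p v => wt_nonneg hy p v) (fun p => wt_sum y p)
    hsum
  refine ⟨σ, ?_, ?_⟩
  · intro a b' c' h
    have h1 := hσ (a, b')
    rw [h] at h1
    exact h1
  · intro j
    obtain ⟨S, -, -, hb⟩ := hT j
    exact lt_of_lt_of_le (not_le.mp (hQ j)) hb

end Pool.Agent.Helper18.IA85
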